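import Pool.Agent.helper23.CO.SpecB

/-!
# co:LRO, long range order below `β`

Helper file for MP_7c3fb3_pr (project co).
-/

namespace CO

open Finset Filter Topology

theorem LRO (hITR : ITR_stmt) (hBAS : BAS_stmt) (hMSP : MSP_stmt) : LRO_stmt := by
  intro d β κ hd hLC hm hκ
  set m : ℝ := ms d β with hmdef
  set ε : ℝ := min (κ / 6) (m / 5) with hε
  have hε0 : 0 < ε := lt_min (by linarith) (by linarith)
  have hε1 : ε ≤ κ / 6 := min_le_left _ _
  have hε2 : ε ≤ m / 5 := min_le_right _ _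
  obtain ⟨b, hb0, hbβ, hbm⟩ := hLC ε hε0
  rw [← hmdef] at hbm
  have hβ0 : 0 ≤ β := hb0.trans hbβ.le
  have hm1 : m ≤ 1 := by
    have h := (hMSP d).1 β 0 hβ0
    exact h.2.1.trans h.2.2
  have hb1 : ms d b ≤ 1 := by
    have h := (hMSP d).1 b 0 hb0
    exact h.2.1.trans h.2.2
  obtain ⟨h0, hh0, hit⟩ := hITR d (ms d b - ε) ε ((β - b) / 2) hd hε0 (by linarith) (by linarith) (by linarith)
  refine ⟨b + (β - b) / 2, by linarith, by linarith, ?_⟩
  filter_upwards [hBAS d b h0 ε (by omega) hb0 hh0 hε0] with n hn x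
  refine le_trans ?_ (hit (n + 3) b (by omega) hb0 hn x)
  have h1 : m - 3 * ε ≤ ms d b - ε - ε := by linarith
  have h2 : 0 ≤ m - 3 * ε := by linarith
  nlinarith [mul_le_mul h1 h1 h2 (h2.trans h1), mul_nonneg hε0.le (sub_nonneg.2 hm1), mul_pos hε0 hε0]

end CO
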