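import Pool.Agent.helper23.CO.SpecC

/-!
# co:MIX, mixing of the chain with frozen walls

Helper file for MP_7c3fb3_pr (project co).
-/

namespace CO

open Finset Filter Topology
open CU

section

variable {d n : ℕ} [NeZero n]

theorem MIX_Wpos (β : ℝ) (σ : Conf d n) : 0 < W β σ := Real.exp_pos _

theorem MIX_plus_mem (D : Finset (Site d n)) : (plus : Conf d n) ∈ PlusOn D := by
  unfold PlusOn
  rw [Finset.mem_filter]
  exact ⟨Finset.mem_univ _, fun _ _ => rfl⟩

theorem MIX_Zpos (β : ℝ) (D : Finset (Site d n)) : 0 < ∑ σ ∈ PlusOn D, W β σ :=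
  Finset.sum_pos (fun σ _ => MIX_Wpos β σ) ⟨_, MIX_plus_mem D⟩

/-- the variance -/
theorem MIX_var (β : ℝ) (D : Finset (Site d n)) (g : Conf d n → ℝ) (e : ℝ) (he : ExD β D g = e) :
    ExD β D (fun σ => (g σ - e) ^ 2) = ExD β D (fun σ => g σ ^ 2) - e ^ 2 := by
  have hZ := MIX_Zpos β D
  have h1 : (∑ σ ∈ PlusOn D, W β σ * g σ) = e * ∑ σ ∈ PlusOn D, W β σ := by
    rw [← he]
    unfold ExD
    rw [div_mul_cancel₀ _ hZ.ne']
  have h2 : (∑ σ ∈ PlusOn D, W β σ * (g σ - e) ^ 2) =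
      (∑ σ ∈ PlusOn D, W β σ * g σ ^ 2) - e ^ 2 * ∑ σ ∈ PlusOn D, W β σ := by
    have h3 : (∑ σ ∈ PlusOn D, W β σ * (g σ - e) ^ 2) =
        (∑ σ ∈ PlusOn D, W β σ * g σ ^ 2) - 2 * e * (∑ σ ∈ PlusOn D, W β σ * g σ) +
          e ^ 2 * ∑ σ ∈ PlusOn D, W β σ := by
      rw [Finset.mul_sum, Finset.mul_sum, ← Finset.sum_sub_distrib, ← Finset.sum_add_distrib]
      refine Finset.sum_congr rfl fun σ _ => ?_
      ring
    rw [h3, h1]
    ring
  show (∑ σ ∈ PlusOn D, W β σ * (g σ - e) ^ 2) / (∑ σ ∈ PlusOn D, W β σ) =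
    (∑ σ ∈ PlusOn D, W β σ * g σ ^ 2) / (∑ σ ∈ PlusOn D, W β σ) - e ^ 2
  rw [h2, sub_div, mul_div_assoc, div_self hZ.ne', mul_one]

theorem MIX_nonneg (β : ℝ) (D : Finset (Site d n)) (g : Conf d n → ℝ) (hg : ∀ σ, 0 ≤ g σ) :
    0 ≤ ExD β D g :=
  div_nonneg (Finset.sum_nonneg fun σ _ => mul_nonneg (MIX_Wpos β σ).le (hg σ)) (MIX_Zpos β D).le

theorem MIX_le (β : ℝ) (D : Finset (Site d n)) (g : Conf d n → ℝ) (c : ℝ) (hg : ∀ σ, g σ ≤ c) :
    ExD β D g ≤ c := by
  unfold ExD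
  rw [div_le_iff₀ (MIX_Zpos β D), Finset.mul_sum]
  refine Finset.sum_le_sum fun σ _ => ?_
  rw [mul_comm c]
  exact mul_le_mul_of_nonneg_left (hg σ) (MIX_Wpos β σ).le

theorem MIX_ext_mem (D : Finset (Site d n)) (σ : Conf d n) : ext D σ ∈ PlusOn D := by
  unfold PlusOn
  rw [Finset.mem_filter]
  refine ⟨Finset.mem_univ _, fun x hx => ?_⟩
  unfold CU.ext
  rw [if_neg hx]

/-- the value at a point -/
theorem MIX_point (β : ℝ) (hβ : 0 ≤ β) (D : Finset (Site d n)) (h : Conf d n → ℝ) (σ : Conf d n)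
    (hσ : σ ∈ PlusOn D) :
    h σ ^ 2 ≤ ExD β D (fun η => h η ^ 2) *
      Real.exp ((2 * d * β + 1) * (Fintype.card (Site d n) : ℝ)) := by
  have hZ := MIX_Zpos β D
  have h1 : W β σ * h σ ^ 2 ≤ ExD β D (fun η => h η ^ 2) * ∑ σ ∈ PlusOn D, W β σ := by
    have h2 : ExD β D (fun η => h η ^ 2) * ∑ σ ∈ PlusOn D, W β σ = ∑ σ ∈ PlusOn D, W β σ * h σ ^ 2 := by
      unfold ExD
      rw [div_mul_cancel₀ _ hZ.ne']
    rw [h2]
    exact Finset.single_le_sum (f := fun η => W β η * h η ^ 2)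
      (fun η _ => mul_nonneg (MIX_Wpos β η).le (sq_nonneg _)) hσ
  have h3 : Real.exp (-(2 * d * β * (Fintype.card (Site d n) : ℝ))) ≤ W β σ := by
    unfold W
    apply Real.exp_le_exp.2
    have h4 : ((brk σ).card : ℝ) ≤ (Fintype.card (Site d n) : ℝ) * d := by
      have h5 : (brk σ).card ≤ Fintype.card (Edge d n) := Finset.card_le_univ _
      have h6 : Fintype.card (Edge d n) = Fintype.card (Site d n) * d := by
        rw [show Fintype.card (Edge d n) = Fintype.card (Site d n × Fin d) from rfl, Fintype.card_prod,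
          Fintype.card_fin]
      rw [h6] at h5
      exact_mod_cast h5
    nlinarith [mul_le_mul_of_nonneg_left h4 hβ]
  have h7 : (∑ σ ∈ PlusOn D, W β σ) ≤ Real.exp (Fintype.card (Site d n) : ℝ) := by
    have h8 : (∑ σ ∈ PlusOn D, W β σ) ≤ ∑ σ : Conf d n, (1 : ℝ) := by
      refine le_trans (Finset.sum_le_sum fun σ _ => (?_ : W β σ ≤ 1)) ?_
      · unfold W
        apply Real.exp_le_one_iff.2
        nlinarith [mul_nonneg hβ (Nat.cast_nonneg (α := ℝ) (brk σ).card)]
      · exact Finset.sum_le_sum_of_subset_of_nonneg (Finset.subset_univ _) fun _ _ _ => zero_le_one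
    have h9 : (∑ σ : Conf d n, (1 : ℝ)) = 2 ^ Fintype.card (Site d n) := by
      rw [Finset.sum_const, Finset.card_univ, nsmul_eq_mul, mul_one]
      rw [show Fintype.card (Conf d n) = Fintype.card (Site d n → Bool) from rfl, Fintype.card_fun,
        Fintype.card_bool]
      push_cast
      rfl
    rw [h9] at h8
    refine h8.trans ?_
    have h10 : (2 : ℝ) ≤ Real.exp 1 := by
      have := Real.add_one_le_exp (1 : ℝ)
      linarith
    calc (2 : ℝ) ^ Fintype.card (Site d n) ≤ Real.exp 1 ^ Fintype.card (Site d n) :=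
          pow_le_pow_left₀ (by norm_num) h10 _
      _ = Real.exp (Fintype.card (Site d n) : ℝ) := by
          rw [← Real.exp_nat_mul, mul_one]
  have hE : 0 ≤ ExD β D (fun η => h η ^ 2) := MIX_nonneg β D _ fun σ => sq_nonneg _
  have h11 : Real.exp (-(2 * d * β * (Fintype.card (Site d n) : ℝ))) * h σ ^ 2 ≤
      ExD β D (fun η => h η ^ 2) * Real.exp (Fintype.card (Site d n) : ℝ) :=
    calc Real.exp (-(2 * d * β * (Fintype.card (Site d n) : ℝ))) * h σ ^ 2 ≤ W β σ * h σ ^ 2 :=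
          mul_le_mul_of_nonneg_right h3 (sq_nonneg _)
      _ ≤ _ := h1
      _ ≤ _ := mul_le_mul_of_nonneg_left h7 hE
  have h12 : h σ ^ 2 = Real.exp (2 * d * β * (Fintype.card (Site d n) : ℝ)) *
      (Real.exp (-(2 * d * β * (Fintype.card (Site d n) : ℝ))) * h σ ^ 2) := by
    rw [← mul_assoc, ← Real.exp_add, add_neg_cancel, Real.exp_zero, one_mul]
  calc h σ ^ 2 = Real.exp (2 * d * β * (Fintype.card (Site d n) : ℝ)) *
      (Real.exp (-(2 * d * β * (Fintype.card (Site d n) : ℝ))) * h σ ^ 2) := h12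
    _ ≤ Real.exp (2 * d * β * (Fintype.card (Site d n) : ℝ)) *
      (ExD β D (fun η => h η ^ 2) * Real.exp (Fintype.card (Site d n) : ℝ)) :=
        mul_le_mul_of_nonneg_left h11 (Real.exp_pos _).le
    _ = ExD β D (fun η => h η ^ 2) * (Real.exp (2 * d * β * (Fintype.card (Site d n) : ℝ)) *
      Real.exp (Fintype.card (Site d n) : ℝ)) := by ring
    _ = ExD β D (fun η => h η ^ 2) * Real.exp ((2 * d * β + 1) * (Fintype.card (Site d n) : ℝ)) := by
        rw [← Real.exp_add]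
        congr 2
        ring

end

theorem MIX (hPDS : PDS_stmt) (hERA : ERA_stmt) (hERK : ERK_stmt) (hBX2 : CU.BX2_stmt) : MIX_stmt := by
  intro d n _ β C B R f hβ hC hPoi hf hB t σ
  set N : ℝ := (Fintype.card (Site d n) : ℝ) with hN
  have hN0 : 0 < N := by
    rw [hN]
    have : 0 < Fintype.card (Site d n) := Fintype.card_pos_iff.2 ⟨0⟩
    exact_mod_cast this
  set e : ℝ := ExD β R f with he
  set g : ℕ → Conf d n → ℝ := fun t => (PD β R)^[t] f with hg
  have hgs : ∀ t, g (t + 1) = PD β R (g t) := by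
    intro t
    rw [hg]
    exact Function.iterate_succ_apply' _ _ _
  have hg0 : g 0 = f := rfl
  have hge : ∀ t, (∀ σ, g t (ext R σ) = g t σ) ∧ ExD β R (g t) = e := by
    intro t
    induction t with
    | zero =>
      rw [hg0]
      exact ⟨hf, rfl⟩
    | succ t ih =>
      rw [hgs]
      have h := hBX2 d n β R (g t) ih.1
      exact ⟨h.1, h.2.trans ih.2⟩
  set a : ℕ → ℝ := fun t => ExD β R (fun σ => (g t σ - e) ^ 2) with ha
  have hvar : ∀ t, a t = ExD β R (fun σ => g t σ ^ 2) - e ^ 2 := fun t => MIX_var β R (g t) e (hge t).2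
  have ha0 : ∀ t, 0 ≤ a t := fun t => MIX_nonneg β R _ fun σ => sq_nonneg _
  have hpoi : ∀ t, a t ≤ C * ∑ x ∈ R, ExD β R (fun σ => (g t σ - Kx β x (g t) σ) ^ 2) := by
    intro t
    have h1 := hPoi (g t) plus
    have h2 : ER β R (g t) plus = e := by
      rw [← (hERK d n β (g t)).2 R]
      exact (hge t).2
    have h3 : a t ≤ ER β R (fun η => (g t η - ER β R (g t) η) ^ 2) plus := by
      have h4 : a t = ER β R (fun σ => (g t σ - e) ^ 2) plus := (hERK d n β _).2 R
      rw [h4]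
      refine (hERA d n β R).1 _ _ _ ?_
      intro η hη
      have h5 : ER β R (g t) η = ER β R (g t) plus := by
        refine (hERA d n β R).2.2.2.1 (g t) η plus ?_
        unfold fo at hη
        exact (Finset.mem_filter.1 hη).2
      rw [h5, h2]
    refine h3.trans (h1.trans (le_of_eq ?_))
    rw [Finset.sum_congr rfl fun x _ => ((hERK d n β (fun σ => (g t σ - Kx β x (g t) σ) ^ 2)).2 R).symm]
  have hstep : ∀ t, a (t + 1) ≤ a t * Real.exp (-(1 / (N * C))) := by
    intro t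
    have h1 := hPDS d n β R (g t) (hge t).1
    rw [← hgs] at h1
    have h2 := hpoi t
    have h3 : a t / C ≤ ∑ x ∈ R, ExD β R (fun σ => (g t σ - Kx β x (g t) σ) ^ 2) := by
      rw [div_le_iff₀ hC, mul_comm]
      exact h2
    have h4 : a t / C / N ≤ (∑ x ∈ R, ExD β R (fun σ => (g t σ - Kx β x (g t) σ) ^ 2)) / N :=
      div_le_div_of_nonneg_right h3 hN0.le
    have h5 : a (t + 1) ≤ a t - a t / C / N := by
      rw [hvar (t + 1), hvar t]
      rw [hvar t] at h4
      linarith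
    have h6 : a t - a t / C / N = a t * (1 - 1 / (N * C)) := by
      field_simp
    rw [h6] at h5
    refine h5.trans (mul_le_mul_of_nonneg_left ?_ (ha0 t))
    have := Real.add_one_le_exp (-(1 / (N * C)))
    linarith
  have hat : ∀ t : ℕ, a t ≤ B ^ 2 * Real.exp (-(t / (N * C))) := by
    intro t
    induction t with
    | zero =>
      rw [hvar 0, hg0]
      have h1 : ExD β R (fun σ => f σ ^ 2) ≤ B ^ 2 := by
        refine MIX_le β R _ _ fun σ => ?_
        rw [← sq_abs]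
        exact pow_le_pow_left₀ (abs_nonneg _) (hB σ) 2
      have h2 : Real.exp (-(((0 : ℕ) : ℝ) / (N * C))) = 1 := by
        rw [Nat.cast_zero, zero_div, neg_zero, Real.exp_zero]
      rw [h2]
      nlinarith [sq_nonneg e]
    | succ t ih =>
      refine (hstep t).trans ((mul_le_mul_of_nonneg_right ih (Real.exp_pos _).le).trans (le_of_eq ?_))
      rw [mul_assoc, ← Real.exp_add]
      congr 2
      push_cast
      ring
  have hB0 : 0 ≤ B := (abs_nonneg _).trans (hB σ)
  have h1 := MIX_point β hβ R (fun η => g t η - e) (ext R σ) (MIX_ext_mem R σ)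
  have h1' : (g t (ext R σ) - e) ^ 2 ≤ a t * Real.exp ((2 * d * β + 1) * N) := h1
  rw [(hge t).1 σ] at h1'
  have h2 : (g t σ - e) ^ 2 ≤ (B * Real.exp ((2 * d * β + 1) * N - t / (2 * N * C))) ^ 2 := by
    refine h1'.trans ((mul_le_mul_of_nonneg_right (hat t) (Real.exp_pos _).le).trans ?_)
    rw [mul_assoc, ← Real.exp_add, mul_pow, ← Real.exp_nat_mul]
    refine mul_le_mul_of_nonneg_left (Real.exp_le_exp.2 ?_) (sq_nonneg _)
    have h3 : 0 ≤ (2 * d * β + 1) * N := by positivity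
    have h4 : ((2 : ℕ) : ℝ) * ((2 * d * β + 1) * N - t / (2 * N * C)) =
        2 * ((2 * d * β + 1) * N) - t / (N * C) := by
      push_cast
      field_simp
    rw [h4]
    linarith
  have h5 : 0 ≤ B * Real.exp ((2 * d * β + 1) * N - t / (2 * N * C)) := mul_nonneg hB0 (Real.exp_pos _).le
  exact abs_le_of_sq_le_sq h2 h5

end CO
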